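import Mathlib

/-!
Residually finite groups are axiomatizable in the infinitary logic with arbitrary (set-sized)
conjunctions, disjunctions and quantifier blocks.

The key point is compactness of the space of maps from a group into a fixed finite group: an
element g of G survives in some homomorphism to the finite group Q as soon as, for every finite
tuple of elements of G, there is a map from this tuple to Q which respects all products that
happen to lie inside the tuple and does not send g to the identity.
-/

universe u

namespace Pool.Agent.Results.MP_f264ea_lc.Groups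

open FirstOrder

/-- Formulas of the infinitary logic over the signature `L`, with free variables indexed by the
type `α`.  Conjunctions and disjunctions are over arbitrary (small) index types, and quantifiers
bind arbitrary (small) sets `β` of new variables at once. -/
inductive InfFormula (L : FirstOrder.Language.{0, 0}) : Type → Type 1
  | equal {α : Type} (s t : L.Term α) : InfFormula L α
  | rel {α : Type} {n : ℕ} (R : L.Relations n) (ts : Fin n → L.Term α) : InfFormula L α
  | neg {α : Type} (φ : InfFormula L α) : InfFormula L α
  | conj {α ι : Type} (φ : ι → InfFormula L α) : InfFormula L α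
  | disj {α ι : Type} (φ : ι → InfFormula L α) : InfFormula L α
  | all {α β : Type} (φ : InfFormula L (α ⊕ β)) : InfFormula L α
  | ex {α β : Type} (φ : InfFormula L (α ⊕ β)) : InfFormula L α

/-- Truth of an infinitary formula in a structure `M` under an assignment of its free variables. -/
def InfFormula.Holds {L : FirstOrder.Language.{0, 0}} (M : Type u) [L.Structure M] :
    {α : Type} → InfFormula L α → (α → M) → Prop
  | _, .equal s t, v => s.realize v = t.realize v
  | _, .rel R ts, v => Language.Structure.RelMap R (fun i => (ts i).realize v)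
  | _, .neg φ, v => ¬ φ.Holds M v
  | _, .conj φ, v => ∀ i, (φ i).Holds M v
  | _, .disj φ, v => ∃ i, (φ i).Holds M v
  | _, .all φ, v => ∀ w, φ.Holds M (Sum.elim v w)
  | _, .ex φ, v => ∃ w, φ.Holds M (Sum.elim v w)

/-- The function symbols `·`, inverse, `1` of the signature of groups. -/
inductive GroupFunc : ℕ → Type
  | mul : GroupFunc 2
  | inv : GroupFunc 1
  | one : GroupFunc 0

/-- The signature of groups (product, inverse, identity); it has no relation symbols. -/
def groupSig : FirstOrder.Language.{0, 0} := ⟨GroupFunc, fun _ => Empty⟩

/-- The symbols of the signature are interpreted in `M` by the operations of the group `M`. -/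
def Agrees (M : Type u) [groupSig.Structure M] [Group M] : Prop :=
  (∀ x : Fin 2 → M, Language.Structure.funMap (L := groupSig) GroupFunc.mul x = x 0 * x 1) ∧
  (∀ x : Fin 1 → M, Language.Structure.funMap (L := groupSig) GroupFunc.inv x = (x 0)⁻¹) ∧
  (∀ x : Fin 0 → M, Language.Structure.funMap (L := groupSig) GroupFunc.one x = 1)

/-- A group is residually finite if every nonidentity element lies outside some normal subgroup of
finite index. -/
def ResiduallyFinite (G : Type u) [Group G] : Prop :=
  ∀ g : G, g ≠ 1 → ∃ N : Subgroup G, N.Normal ∧ N.FiniteIndex ∧ g ∉ N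

/-- The structure `M` is a residually finite group. -/
def IsResiduallyFiniteGroup (M : Type u) [groupSig.Structure M] : Prop :=
  ∃ _ : Group M, Agrees M ∧ ResiduallyFinite M

/-! ### Terms -/

abbrev tMul {α : Type} (s t : groupSig.Term α) : groupSig.Term α :=
  Language.Term.func (L := groupSig) GroupFunc.mul ![s, t]

abbrev tInv {α : Type} (s : groupSig.Term α) : groupSig.Term α :=
  Language.Term.func (L := groupSig) GroupFunc.inv ![s]

abbrev tOne {α : Type} : groupSig.Term α :=
  Language.Term.func (L := groupSig) GroupFunc.one ![]

abbrev tVar {α : Type} (a : α) : groupSig.Term α := Language.Term.var a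

section operations

variable (M : Type u) [groupSig.Structure M]

def opMul (x y : M) : M := Language.Structure.funMap (L := groupSig) GroupFunc.mul ![x, y]
def opInv (x : M) : M := Language.Structure.funMap (L := groupSig) GroupFunc.inv ![x]
def opOne : M := Language.Structure.funMap (L := groupSig) GroupFunc.one ![]

variable {M}

lemma realize_tMul {α : Type} (s t : groupSig.Term α) (v : α → M) :
    (tMul s t).realize v = opMul M (s.realize v) (t.realize v) := by
  simp only [Language.Term.realize, opMul]
  congr 1
  funext i
  fin_cases i <;> rfl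

lemma realize_tInv {α : Type} (s : groupSig.Term α) (v : α → M) :
    (tInv s).realize v = opInv M (s.realize v) := by
  simp only [Language.Term.realize, opInv]
  congr 1
  funext i
  fin_cases i; rfl

lemma realize_tOne {α : Type} (v : α → M) :
    (tOne : groupSig.Term α).realize v = opOne M := by
  simp only [Language.Term.realize, opOne]
  congr 1
  funext i
  exact i.elim0

end operations

/-! ### The sentence -/

/-- The group axioms, as formulas in three variables. -/
def axioms : Fin 3 → InfFormula groupSig (Empty ⊕ Fin 3)
  | 0 => .equal (tMul (tMul (tVar (.inr 0)) (tVar (.inr 1))) (tVar (.inr 2)))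
      (tMul (tVar (.inr 0)) (tMul (tVar (.inr 1)) (tVar (.inr 2))))
  | 1 => .equal (tMul tOne (tVar (.inr 0))) (tVar (.inr 0))
  | 2 => .equal (tMul (tInv (tVar (.inr 0))) (tVar (.inr 0))) tOne

/-- The group axioms as one sentence. -/
def groupAxioms : InfFormula groupSig Empty := .all (β := Fin 3) (.conj axioms)

/-- All finite groups, up to isomorphism: group structures on initial segments of the naturals. -/
def FinGroup : Type := Σ m : ℕ, Group (Fin m)

/-- The underlying set of a finite group. -/
def FinGroup.Carrier (Q : FinGroup) : Type := Fin Q.1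

instance (Q : FinGroup) : Group Q.Carrier := Q.2

instance (Q : FinGroup) : Finite Q.Carrier := inferInstanceAs (Finite (Fin Q.1))

/-- The map `f` from the variables to the finite group `Q` respects equalities and products of
variables. -/
def respects {V : Type} (Q : FinGroup) (f : V → Q.Carrier) : InfFormula groupSig V :=
  .conj (fun b : Fin 2 => match b with
    | 0 => .conj (fun p : {p : V × V // f p.1 ≠ f p.2} =>
        .neg (.equal (tVar p.1.1) (tVar p.1.2)))
    | 1 => .conj (fun p : {p : V × V × V // f p.1 * f p.2.1 ≠ f p.2.2} =>
        .neg (.equal (tMul (tVar p.1.1) (tVar p.1.2.1)) (tVar p.1.2.2))))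

/-- The element (variable `inr 0`) survives in a homomorphism to the finite group `Q`. -/
def survives (Q : FinGroup) : InfFormula groupSig (Empty ⊕ Fin 1) :=
  .conj (fun n : ℕ => .all (β := Fin n)
    (.disj (fun f : {f : (Empty ⊕ Fin 1) ⊕ Fin n → Q.Carrier // f (.inl (.inr 0)) ≠ 1} =>
      respects Q f.1)))

/-- Residual finiteness as one sentence. -/
def resFin : InfFormula groupSig Empty :=
  .all (β := Fin 1) (.disj (fun o : Option FinGroup => match o with
    | none => .equal (tVar (.inr 0)) tOne
    | some Q => survives Q))

/-- The sentence axiomatizing residually finite groups. -/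
def sentence : InfFormula groupSig Empty := .conj (fun b : Bool => if b then groupAxioms else resFin)

/-! ### Correctness -/

variable {M : Type u} [groupSig.Structure M]

/-- The group axioms for the operations of the structure `M`. -/
def GroupLaws (M : Type u) [groupSig.Structure M] : Prop := ∀ x y z : M,
    opMul M (opMul M x y) z = opMul M x (opMul M y z) ∧ opMul M (opOne M) x = x ∧
    opMul M (opInv M x) x = opOne M

lemma holds_groupAxioms : groupAxioms.Holds M Empty.elim ↔ GroupLaws M := by
  constructor
  · intro h x y z
    have h' := h ![x, y, z]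
    have h0 := h' 0
    have h1 := h' 1
    have h2 := h' 2
    simp only [axioms, InfFormula.Holds, realize_tMul, realize_tInv,
      realize_tOne, tVar, Language.Term.realize_var, Sum.elim_inr] at h0 h1 h2
    exact ⟨h0, h1, h2⟩
  · intro h w i
    obtain ⟨h0, h1, h2⟩ := h (w 0) (w 1) (w 2)
    fin_cases i <;>
      simp only [axioms, InfFormula.Holds, realize_tMul, realize_tInv,
        realize_tOne, tVar, Language.Term.realize_var, Sum.elim_inr] <;> assumption

lemma holds_respects {V : Type} (Q : FinGroup) (f : V → Q.Carrier) (v : V → M) :
    (respects Q f).Holds M v ↔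
      (∀ i j, v i = v j → f i = f j) ∧
      (∀ i j k, opMul M (v i) (v j) = v k → f i * f j = f k) := by
  constructor
  · intro h
    refine ⟨fun i j hij => ?_, fun i j k hij => ?_⟩
    · by_contra hne
      have := h 0 ⟨(i, j), hne⟩
      simp only [InfFormula.Holds, tVar, Language.Term.realize_var] at this
      exact this hij
    · by_contra hne
      have := h 1 ⟨(i, j, k), hne⟩
      simp only [InfFormula.Holds, realize_tMul, tVar, Language.Term.realize_var] at this
      exact this hij
  · rintro ⟨h0, h1⟩ b
    fin_cases b
    · rintro ⟨⟨i, j⟩, hne⟩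
      simp only [InfFormula.Holds, tVar, Language.Term.realize_var]
      exact fun hij => hne (h0 i j hij)
    · rintro ⟨⟨i, j, k⟩, hne⟩
      simp only [InfFormula.Holds, realize_tMul, tVar, Language.Term.realize_var]
      exact fun hij => hne (h1 i j k hij)

lemma holds_survives (Q : FinGroup) (w : Empty ⊕ Fin 1 → M) :
    (survives Q).Holds M w ↔ ∀ (n : ℕ) (x : Fin n → M),
      ∃ f : (Empty ⊕ Fin 1) ⊕ Fin n → Q.Carrier, f (.inl (.inr 0)) ≠ 1 ∧
        (∀ i j, Sum.elim w x i = Sum.elim w x j → f i = f j) ∧
        (∀ i j k, opMul M (Sum.elim w x i) (Sum.elim w x j) = Sum.elim w x k →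
          f i * f j = f k) := by
  simp only [survives, InfFormula.Holds, holds_respects, Subtype.exists, exists_prop]

/-- The local condition gives, by compactness, a genuine map to the finite group `Q`. -/
lemma exists_hom (Q : FinGroup) (a : M) (h : ∀ (n : ℕ) (x : Fin n → M),
      ∃ f : (Empty ⊕ Fin 1) ⊕ Fin n → Q.Carrier, f (.inl (.inr 0)) ≠ 1 ∧
        (∀ i j, Sum.elim (fun _ => a) x i = Sum.elim (fun _ => a) x j → f i = f j) ∧
        (∀ i j k, opMul M (Sum.elim (fun _ => a) x i) (Sum.elim (fun _ => a) x j) =
          Sum.elim (fun _ => a) x k → f i * f j = f k)) :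
    ∃ χ : M → Q.Carrier, χ a ≠ 1 ∧ (∀ x y, χ (opMul M x y) = χ x * χ y) := by
  classical
  have key : ∀ s : Finset M, ∃ g : M → Q.Carrier, (a ∈ s → g a ≠ 1) ∧
      (∀ x ∈ s, ∀ y ∈ s, opMul M x y ∈ s → g (opMul M x y) = g x * g y) := by
    intro s
    obtain ⟨f, hf0, hf1, hf2⟩ := h s.card (fun i => (s.equivFin.symm i : M))
    set v : (Empty ⊕ Fin 1) ⊕ Fin s.card → M :=
      Sum.elim (fun _ => a) (fun i => (s.equivFin.symm i : M)) with hv
    have hx : ∀ x (hx : x ∈ s), v (.inr (s.equivFin ⟨x, hx⟩)) = x := by
      intro x hx
      simp [hv]
    refine ⟨fun x => if hx : x ∈ s then f (.inr (s.equivFin ⟨x, hx⟩)) else 1, ?_, ?_⟩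
    · intro ha
      have : f (.inl (.inr 0)) = f (.inr (s.equivFin ⟨a, ha⟩)) := by
        apply hf1
        rw [hx a ha]
        rfl
      simp only [ha, dif_pos]
      rwa [← this]
    · intro x hxs y hys hxy
      simp only [hxs, hys, hxy, dif_pos]
      symm
      apply hf2
      rw [hx x hxs, hx y hys, hx _ hxy]
  choose g hg0 hg1 using key
  obtain ⟨χ, hχ⟩ := Finset.rado_selection (β := fun _ : M => Q.Carrier) g
  refine ⟨χ, ?_, ?_⟩
  · obtain ⟨t, hst, ht⟩ := hχ {a}
    rw [ht a (by simp)]
    exact hg0 t (hst (by simp))
  · intro x y
    obtain ⟨t, hst, ht⟩ := hχ {x, y, opMul M x y}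
    rw [ht _ (by simp), ht x (by simp), ht y (by simp)]
    exact hg1 t x (hst (by simp)) y (hst (by simp)) (hst (by simp))

/-- The group structure on `M` given by the group axioms. -/
@[reducible] def mkGroup (h : GroupLaws M) : Group M :=
  @Group.ofLeftAxioms M ⟨opMul M⟩ ⟨opInv M⟩ ⟨opOne M⟩
    (fun x y z => (h x y z).1) (fun x => (h x x x).2.1) (fun x => (h x x x).2.2)

lemma agrees_mkGroup (h : GroupLaws M) : @Agrees M _ (mkGroup h) := by
  refine ⟨fun x => ?_, fun x => ?_, fun x => ?_⟩
  · show _ = opMul M (x 0) (x 1)
    rw [opMul]
    congr 1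
    funext i
    fin_cases i <;> rfl
  · show _ = opInv M (x 0)
    rw [opInv]
    congr 1
    funext i
    fin_cases i; rfl
  · show _ = opOne M
    rw [opOne]
    congr 1
    funext i
    exact i.elim0

lemma agrees_mul [Group M] (h : Agrees M) (x y : M) : opMul M x y = x * y := h.1 _
lemma agrees_inv [Group M] (h : Agrees M) (x : M) : opInv M x = x⁻¹ := h.2.1 _
lemma agrees_one [Group M] (h : Agrees M) : opOne M = 1 := h.2.2 _

lemma groupLaws_of_agrees [Group M] (h : Agrees M) : GroupLaws M := by
  intro x y z
  simp only [agrees_mul h, agrees_inv h, agrees_one h]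
  exact ⟨mul_assoc _ _ _, one_mul _, inv_mul_cancel _⟩

/-- Transport of a finite group to an initial segment of the naturals. -/
lemma exists_finGroup (S : Type u) [Group S] [Finite S] :
    ∃ Q : FinGroup, Nonempty (S ≃* Q.Carrier) := by
  obtain ⟨m, ⟨e⟩⟩ := Finite.exists_equiv_fin S
  exact ⟨⟨m, e.symm.group⟩, ⟨@MulEquiv.symm _ _ _ _ (@Equiv.mulEquiv _ _ e.symm _)⟩⟩

lemma holds_resFin (h : GroupLaws M) :
    resFin.Holds M Empty.elim ↔ @ResiduallyFinite M (mkGroup h) := by
  let _ : Group M := mkGroup h
  constructor
  · intro hr a ha
    obtain ⟨o, ho⟩ := hr (fun _ => a)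
    cases o with
    | none =>
      exfalso
      simp only [InfFormula.Holds, tVar, Language.Term.realize_var, Sum.elim_inr,
        realize_tOne] at ho
      exact ha ho
    | some Q =>
      rw [holds_survives] at ho
      have hel : (Sum.elim Empty.elim (fun _ : Fin 1 => a) : Empty ⊕ Fin 1 → M) = fun _ => a := by
        funext i
        rcases i with i | i
        · exact i.elim
        · rfl
      rw [hel] at ho
      obtain ⟨χ, hχ0, hχ1⟩ := exists_hom Q a ho
      let φ : M →* Q.Carrier := MonoidHom.mk' χ hχ1
      refine ⟨φ.ker, inferInstance, ?_, ?_⟩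
      · exact Subgroup.finiteIndex_ker φ
      · rw [MonoidHom.mem_ker]
        exact hχ0
  · intro hr w
    by_cases hw : w 0 = 1
    · refine ⟨none, ?_⟩
      simp only [InfFormula.Holds, tVar, Language.Term.realize_var, Sum.elim_inr, realize_tOne]
      exact hw
    · obtain ⟨N, hN, hfin, haN⟩ := hr (w 0) hw
      obtain ⟨Q, ⟨e⟩⟩ := exists_finGroup (M ⧸ N)
      refine ⟨some Q, ?_⟩
      rw [holds_survives]
      intro n x
      refine ⟨fun i => e ((Sum.elim (Sum.elim Empty.elim w) x i : M) : M ⧸ N), ?_, ?_, ?_⟩
      · intro h0
        apply haN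
        rw [map_eq_one_iff e e.injective] at h0
        exact (QuotientGroup.eq_one_iff _).mp h0
      · intro i j hij
        show e _ = e _
        rw [hij]
      · intro i j k hij
        show e _ * e _ = e _
        rw [← map_mul, ← hij]
        rfl

/-- **Theorem.** Residually finite groups are axiomatizable by one sentence of the infinitary
logic: there is a sentence over the signature of groups whose models are exactly the residually
finite groups. -/
theorem result : ∃ φ : InfFormula groupSig Empty, ∀ (M : Type u) [groupSig.Structure M],
    φ.Holds M Empty.elim ↔ IsResiduallyFiniteGroup M := by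
  refine ⟨sentence, fun M _ => ?_⟩
  constructor
  · intro h
    have h1 : GroupLaws M := holds_groupAxioms.mp (h true)
    have h2 := (holds_resFin h1).mp (h false)
    exact ⟨mkGroup h1, agrees_mkGroup h1, h2⟩
  · rintro ⟨G, hG, hrf⟩
    have h1 : GroupLaws M := groupLaws_of_agrees hG
    have hmk : mkGroup h1 = G := by
      apply Group.ext
      funext x y
      exact agrees_mul hG x y
    intro b
    cases b
    · show resFin.Holds M Empty.elim
      rw [holds_resFin h1, hmk]
      exact hrf
    · exact holds_groupAxioms.mpr h1

end Pool.Agent.Results.MP_f264ea_lc.Groups
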