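import Mathlib

/-!
Residually finite rings are axiomatizable in the infinitary logic with arbitrary (set-sized)
conjunctions, disjunctions and quantifier blocks.

The key point is compactness of the space of maps from a ring into a fixed finite ring: an element
a of R survives in some quotient isomorphic to a subring of the finite ring Q as soon as, for
every finite tuple of elements of R, there is a map from this tuple to Q which respects all sums
and products that happen to lie inside the tuple and does not send a to zero.
-/

universe u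

namespace Pool.Agent.Results.MP_f264ea_lc.Rings

open FirstOrder

/-- Formulas of the infinitary logic over the signature `L`, with free variables indexed by the
type `α`.  Conjunctions and disjunctions are over arbitrary (small) index types, and quantifiers
bind arbitrary (small) sets `β` of new variables at once. -/
inductive InfFormula (L : FirstOrder.Language.{0, 0}) : Type → Type 1
  | equal {α : Type} (s t : L.Term α) : InfFormula L α
  | rel {α : Type} {n : ℕ} (R : L.Relations n) (ts : Fin n → L.Term α) : InfFormula L α
  | neg {α : Type} (φ : InfFormula L α) : InfFormula L α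
  | conj {α ι : Type} (φ : ι → InfFormula L α) : InfFormula L α
  | disj {α ι : Type} (φ : ι → InfFormula L α) : InfFormula L α
  | all {α β : Type} (φ : InfFormula L (α ⊕ β)) : InfFormula L α
  | ex {α β : Type} (φ : InfFormula L (α ⊕ β)) : InfFormula L α

/-- Truth of an infinitary formula in a structure `M` under an assignment of its free variables. -/
def InfFormula.Holds {L : FirstOrder.Language.{0, 0}} (M : Type u) [L.Structure M] :
    {α : Type} → InfFormula L α → (α → M) → Prop
  | _, .equal s t, v => s.realize v = t.realize v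
  | _, .rel R ts, v => Language.Structure.RelMap R (fun i => (ts i).realize v)
  | _, .neg φ, v => ¬ φ.Holds M v
  | _, .conj φ, v => ∀ i, (φ i).Holds M v
  | _, .disj φ, v => ∃ i, (φ i).Holds M v
  | _, .all φ, v => ∀ w, φ.Holds M (Sum.elim v w)
  | _, .ex φ, v => ∃ w, φ.Holds M (Sum.elim v w)

/-- The function symbols `+`, `-`, `·`, `0` of the signature of rings. -/
inductive RingFunc : ℕ → Type
  | add : RingFunc 2
  | neg : RingFunc 1
  | mul : RingFunc 2
  | zero : RingFunc 0

/-- The signature `{+, -, ·, 0}` of rings; it has no relation symbols. -/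
def ringSig : FirstOrder.Language.{0, 0} := ⟨RingFunc, fun _ => Empty⟩

/-- The symbols of the signature are interpreted in `M` by the operations of the ring `M`. -/
def Agrees (M : Type u) [ringSig.Structure M] [NonUnitalRing M] : Prop :=
  (∀ x : Fin 2 → M, Language.Structure.funMap (L := ringSig) RingFunc.add x = x 0 + x 1) ∧
  (∀ x : Fin 1 → M, Language.Structure.funMap (L := ringSig) RingFunc.neg x = - x 0) ∧
  (∀ x : Fin 2 → M, Language.Structure.funMap (L := ringSig) RingFunc.mul x = x 0 * x 1) ∧
  (∀ x : Fin 0 → M, Language.Structure.funMap (L := ringSig) RingFunc.zero x = 0)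

/-- A ring (associative, not necessarily with an identity) is residually finite if every nonzero
element lies outside some two-sided ideal with finite quotient. -/
def ResiduallyFinite (R : Type u) [NonUnitalRing R] : Prop :=
  ∀ a : R, a ≠ 0 → ∃ I : TwoSidedIdeal R, Finite I.ringCon.Quotient ∧ a ∉ I

/-- The structure `M` is a residually finite ring. -/
def IsResiduallyFiniteRing (M : Type u) [ringSig.Structure M] : Prop :=
  ∃ _ : NonUnitalRing M, Agrees M ∧ ResiduallyFinite M

/-! ### Terms -/

abbrev tAdd {α : Type} (s t : ringSig.Term α) : ringSig.Term α :=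
  Language.Term.func (L := ringSig) RingFunc.add ![s, t]

abbrev tNeg {α : Type} (s : ringSig.Term α) : ringSig.Term α :=
  Language.Term.func (L := ringSig) RingFunc.neg ![s]

abbrev tMul {α : Type} (s t : ringSig.Term α) : ringSig.Term α :=
  Language.Term.func (L := ringSig) RingFunc.mul ![s, t]

abbrev tZero {α : Type} : ringSig.Term α :=
  Language.Term.func (L := ringSig) RingFunc.zero ![]

abbrev tVar {α : Type} (a : α) : ringSig.Term α := Language.Term.var a

section operations

variable (M : Type u) [ringSig.Structure M]

def opAdd (x y : M) : M := Language.Structure.funMap (L := ringSig) RingFunc.add ![x, y]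
def opNeg (x : M) : M := Language.Structure.funMap (L := ringSig) RingFunc.neg ![x]
def opMul (x y : M) : M := Language.Structure.funMap (L := ringSig) RingFunc.mul ![x, y]
def opZero : M := Language.Structure.funMap (L := ringSig) RingFunc.zero ![]

variable {M}

lemma realize_tAdd {α : Type} (s t : ringSig.Term α) (v : α → M) :
    (tAdd s t).realize v = opAdd M (s.realize v) (t.realize v) := by
  simp only [Language.Term.realize, opAdd]
  congr 1
  funext i
  fin_cases i <;> rfl

lemma realize_tNeg {α : Type} (s : ringSig.Term α) (v : α → M) :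
    (tNeg s).realize v = opNeg M (s.realize v) := by
  simp only [Language.Term.realize, opNeg]
  congr 1
  funext i
  fin_cases i; rfl

lemma realize_tMul {α : Type} (s t : ringSig.Term α) (v : α → M) :
    (tMul s t).realize v = opMul M (s.realize v) (t.realize v) := by
  simp only [Language.Term.realize, opMul]
  congr 1
  funext i
  fin_cases i <;> rfl

lemma realize_tZero {α : Type} (v : α → M) :
    (tZero : ringSig.Term α).realize v = opZero M := by
  simp only [Language.Term.realize, opZero]
  congr 1
  funext i
  exact i.elim0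

end operations

/-! ### The sentence -/

/-- The ring axioms, as formulas in three variables. -/
def axioms : Fin 7 → InfFormula ringSig (Empty ⊕ Fin 3)
  | 0 => .equal (tAdd (tAdd (tVar (.inr 0)) (tVar (.inr 1))) (tVar (.inr 2)))
      (tAdd (tVar (.inr 0)) (tAdd (tVar (.inr 1)) (tVar (.inr 2))))
  | 1 => .equal (tAdd (tVar (.inr 0)) (tVar (.inr 1))) (tAdd (tVar (.inr 1)) (tVar (.inr 0)))
  | 2 => .equal (tAdd (tVar (.inr 0)) tZero) (tVar (.inr 0))
  | 3 => .equal (tAdd (tVar (.inr 0)) (tNeg (tVar (.inr 0)))) tZero
  | 4 => .equal (tMul (tMul (tVar (.inr 0)) (tVar (.inr 1))) (tVar (.inr 2)))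
      (tMul (tVar (.inr 0)) (tMul (tVar (.inr 1)) (tVar (.inr 2))))
  | 5 => .equal (tMul (tVar (.inr 0)) (tAdd (tVar (.inr 1)) (tVar (.inr 2))))
      (tAdd (tMul (tVar (.inr 0)) (tVar (.inr 1))) (tMul (tVar (.inr 0)) (tVar (.inr 2))))
  | 6 => .equal (tMul (tAdd (tVar (.inr 0)) (tVar (.inr 1))) (tVar (.inr 2)))
      (tAdd (tMul (tVar (.inr 0)) (tVar (.inr 2))) (tMul (tVar (.inr 1)) (tVar (.inr 2))))

/-- The ring axioms as one sentence. -/
def ringAxioms : InfFormula ringSig Empty := .all (β := Fin 3) (.conj axioms)

/-- All finite rings, up to isomorphism: ring structures on initial segments of the naturals. -/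
def FinRing : Type := Σ m : ℕ, NonUnitalRing (Fin m)

/-- The underlying set of a finite ring. -/
def FinRing.Carrier (Q : FinRing) : Type := Fin Q.1

instance (Q : FinRing) : NonUnitalRing Q.Carrier := Q.2

instance (Q : FinRing) : Finite Q.Carrier := inferInstanceAs (Finite (Fin Q.1))

/-- The map `f` from the variables to the finite ring `Q` respects equalities, sums and products of
variables. -/
def respects {V : Type} (Q : FinRing) (f : V → Q.Carrier) : InfFormula ringSig V :=
  .conj (fun b : Fin 3 => match b with
    | 0 => .conj (fun p : {p : V × V // f p.1 ≠ f p.2} =>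
        .neg (.equal (tVar p.1.1) (tVar p.1.2)))
    | 1 => .conj (fun p : {p : V × V × V // f p.1 + f p.2.1 ≠ f p.2.2} =>
        .neg (.equal (tAdd (tVar p.1.1) (tVar p.1.2.1)) (tVar p.1.2.2)))
    | 2 => .conj (fun p : {p : V × V × V // f p.1 * f p.2.1 ≠ f p.2.2} =>
        .neg (.equal (tMul (tVar p.1.1) (tVar p.1.2.1)) (tVar p.1.2.2))))

/-- The element (variable `inr 0`) survives in a homomorphism to the finite ring `Q`. -/
def survives (Q : FinRing) : InfFormula ringSig (Empty ⊕ Fin 1) :=
  .conj (fun n : ℕ => .all (β := Fin n)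
    (.disj (fun f : {f : (Empty ⊕ Fin 1) ⊕ Fin n → Q.Carrier // f (.inl (.inr 0)) ≠ 0} =>
      respects Q f.1)))

/-- Residual finiteness as one sentence. -/
def resFin : InfFormula ringSig Empty :=
  .all (β := Fin 1) (.disj (fun o : Option FinRing => match o with
    | none => .equal (tVar (.inr 0)) tZero
    | some Q => survives Q))

/-- The sentence axiomatizing residually finite rings. -/
def sentence : InfFormula ringSig Empty := .conj (fun b : Bool => if b then ringAxioms else resFin)

/-! ### Correctness -/

variable {M : Type u} [ringSig.Structure M]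

lemma holds_ringAxioms : ringAxioms.Holds M Empty.elim ↔ ∀ x y z : M,
    opAdd M (opAdd M x y) z = opAdd M x (opAdd M y z) ∧ opAdd M x y = opAdd M y x ∧
    opAdd M x (opZero M) = x ∧ opAdd M x (opNeg M x) = opZero M ∧
    opMul M (opMul M x y) z = opMul M x (opMul M y z) ∧
    opMul M x (opAdd M y z) = opAdd M (opMul M x y) (opMul M x z) ∧
    opMul M (opAdd M x y) z = opAdd M (opMul M x z) (opMul M y z) := by
  constructor
  · intro h x y z
    have h' := h ![x, y, z]
    have h0 := h' 0
    have h1 := h' 1
    have h2 := h' 2
    have h3 := h' 3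
    have h4 := h' 4
    have h5 := h' 5
    have h6 := h' 6
    simp only [axioms, InfFormula.Holds, realize_tAdd, realize_tMul, realize_tNeg,
      realize_tZero, tVar, Language.Term.realize_var, Sum.elim_inr] at h0 h1 h2 h3 h4 h5 h6
    exact ⟨h0, h1, h2, h3, h4, h5, h6⟩
  · intro h w i
    obtain ⟨h0, h1, h2, h3, h4, h5, h6⟩ := h (w 0) (w 1) (w 2)
    fin_cases i <;>
      simp only [axioms, InfFormula.Holds, realize_tAdd, realize_tMul, realize_tNeg,
        realize_tZero, tVar, Language.Term.realize_var, Sum.elim_inr] <;> assumption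

lemma holds_respects {V : Type} (Q : FinRing) (f : V → Q.Carrier) (v : V → M) :
    (respects Q f).Holds M v ↔
      (∀ i j, v i = v j → f i = f j) ∧
      (∀ i j k, opAdd M (v i) (v j) = v k → f i + f j = f k) ∧
      (∀ i j k, opMul M (v i) (v j) = v k → f i * f j = f k) := by
  constructor
  · intro h
    refine ⟨fun i j hij => ?_, fun i j k hij => ?_, fun i j k hij => ?_⟩
    · by_contra hne
      have := h 0 ⟨(i, j), hne⟩
      simp only [InfFormula.Holds, tVar, Language.Term.realize_var] at this
      exact this hij
    · by_contra hne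
      have := h 1 ⟨(i, j, k), hne⟩
      simp only [InfFormula.Holds, realize_tAdd, tVar, Language.Term.realize_var] at this
      exact this hij
    · by_contra hne
      have := h 2 ⟨(i, j, k), hne⟩
      simp only [InfFormula.Holds, realize_tMul, tVar, Language.Term.realize_var] at this
      exact this hij
  · rintro ⟨h0, h1, h2⟩ b
    fin_cases b
    · rintro ⟨⟨i, j⟩, hne⟩
      simp only [InfFormula.Holds, tVar, Language.Term.realize_var]
      exact fun hij => hne (h0 i j hij)
    · rintro ⟨⟨i, j, k⟩, hne⟩
      simp only [InfFormula.Holds, realize_tAdd, tVar, Language.Term.realize_var]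
      exact fun hij => hne (h1 i j k hij)
    · rintro ⟨⟨i, j, k⟩, hne⟩
      simp only [InfFormula.Holds, realize_tMul, tVar, Language.Term.realize_var]
      exact fun hij => hne (h2 i j k hij)


lemma holds_survives (Q : FinRing) (w : Empty ⊕ Fin 1 → M) :
    (survives Q).Holds M w ↔ ∀ (n : ℕ) (x : Fin n → M),
      ∃ f : (Empty ⊕ Fin 1) ⊕ Fin n → Q.Carrier, f (.inl (.inr 0)) ≠ 0 ∧
        (∀ i j, Sum.elim w x i = Sum.elim w x j → f i = f j) ∧
        (∀ i j k, opAdd M (Sum.elim w x i) (Sum.elim w x j) = Sum.elim w x k → f i + f j = f k) ∧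
        (∀ i j k, opMul M (Sum.elim w x i) (Sum.elim w x j) = Sum.elim w x k →
          f i * f j = f k) := by
  simp only [survives, InfFormula.Holds, holds_respects, Subtype.exists, exists_prop]

/-- The local condition gives, by compactness, a genuine map to the finite ring `Q`. -/
lemma exists_hom (Q : FinRing) (a : M) (h : ∀ (n : ℕ) (x : Fin n → M),
      ∃ f : (Empty ⊕ Fin 1) ⊕ Fin n → Q.Carrier, f (.inl (.inr 0)) ≠ 0 ∧
        (∀ i j, Sum.elim (fun _ => a) x i = Sum.elim (fun _ => a) x j → f i = f j) ∧
        (∀ i j k, opAdd M (Sum.elim (fun _ => a) x i) (Sum.elim (fun _ => a) x j) =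
          Sum.elim (fun _ => a) x k → f i + f j = f k) ∧
        (∀ i j k, opMul M (Sum.elim (fun _ => a) x i) (Sum.elim (fun _ => a) x j) =
          Sum.elim (fun _ => a) x k → f i * f j = f k)) :
    ∃ χ : M → Q.Carrier, χ a ≠ 0 ∧ (∀ x y, χ (opAdd M x y) = χ x + χ y) ∧
      (∀ x y, χ (opMul M x y) = χ x * χ y) := by
  classical
  -- local maps on finite sets
  have key : ∀ s : Finset M, ∃ g : M → Q.Carrier, (a ∈ s → g a ≠ 0) ∧
      (∀ x ∈ s, ∀ y ∈ s, opAdd M x y ∈ s → g (opAdd M x y) = g x + g y) ∧
      (∀ x ∈ s, ∀ y ∈ s, opMul M x y ∈ s → g (opMul M x y) = g x * g y) := by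
    intro s
    obtain ⟨f, hf0, hf1, hf2, hf3⟩ := h s.card (fun i => (s.equivFin.symm i : M))
    set v : (Empty ⊕ Fin 1) ⊕ Fin s.card → M :=
      Sum.elim (fun _ => a) (fun i => (s.equivFin.symm i : M)) with hv
    have hx : ∀ x (hx : x ∈ s), v (.inr (s.equivFin ⟨x, hx⟩)) = x := by
      intro x hx
      simp [hv]
    refine ⟨fun x => if hx : x ∈ s then f (.inr (s.equivFin ⟨x, hx⟩)) else 0, ?_, ?_, ?_⟩
    · intro ha
      have : f (.inl (.inr 0)) = f (.inr (s.equivFin ⟨a, ha⟩)) := by
        apply hf1
        rw [hx a ha]
        rfl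
      simp only [ha, dif_pos]
      rwa [← this]
    · intro x hxs y hys hxy
      simp only [hxs, hys, hxy, dif_pos]
      symm
      apply hf2
      rw [hx x hxs, hx y hys, hx _ hxy]
    · intro x hxs y hys hxy
      simp only [hxs, hys, hxy, dif_pos]
      symm
      apply hf3
      rw [hx x hxs, hx y hys, hx _ hxy]
  choose g hg0 hg1 hg2 using key
  obtain ⟨χ, hχ⟩ := Finset.rado_selection (β := fun _ : M => Q.Carrier) g
  refine ⟨χ, ?_, ?_, ?_⟩
  · obtain ⟨t, hst, ht⟩ := hχ {a}
    rw [ht a (by simp)]
    exact hg0 t (hst (by simp))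
  · intro x y
    obtain ⟨t, hst, ht⟩ := hχ {x, y, opAdd M x y}
    rw [ht _ (by simp), ht x (by simp), ht y (by simp)]
    exact hg1 t x (hst (by simp)) y (hst (by simp)) (hst (by simp))
  · intro x y
    obtain ⟨t, hst, ht⟩ := hχ {x, y, opMul M x y}
    rw [ht _ (by simp), ht x (by simp), ht y (by simp)]
    exact hg2 t x (hst (by simp)) y (hst (by simp)) (hst (by simp))

/-- The ring axioms for the operations of the structure `M`. -/
def RingLaws (M : Type u) [ringSig.Structure M] : Prop := ∀ x y z : M,
    opAdd M (opAdd M x y) z = opAdd M x (opAdd M y z) ∧ opAdd M x y = opAdd M y x ∧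
    opAdd M x (opZero M) = x ∧ opAdd M x (opNeg M x) = opZero M ∧
    opMul M (opMul M x y) z = opMul M x (opMul M y z) ∧
    opMul M x (opAdd M y z) = opAdd M (opMul M x y) (opMul M x z) ∧
    opMul M (opAdd M x y) z = opAdd M (opMul M x z) (opMul M y z)

/-- The additive group structure on `M` given by the ring axioms. -/
@[reducible] def mkGroup (h : RingLaws M) : AddCommGroup M where
  add := opAdd M
  zero := opZero M
  neg := opNeg M
  nsmul := @nsmulRec M ⟨opZero M⟩ ⟨opAdd M⟩
  zsmul := @zsmulRec M ⟨opZero M⟩ ⟨opAdd M⟩ ⟨opNeg M⟩ (@nsmulRec M ⟨opZero M⟩ ⟨opAdd M⟩)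
  add_assoc x y z := (h x y z).1
  add_comm x y := (h x y x).2.1
  add_zero x := (h x x x).2.2.1
  zero_add x := ((h (opZero M) x x).2.1).trans (h x x x).2.2.1
  neg_add_cancel x := ((h (opNeg M x) x x).2.1).trans (h x x x).2.2.2.1

/-- The ring structure on `M` given by the ring axioms. -/
@[reducible] def mkRing (h : RingLaws M) : NonUnitalRing M :=
  { mkGroup h with
    mul := opMul M
    mul_assoc := fun x y z => (h x y z).2.2.2.2.1
    left_distrib := fun x y z => (h x y z).2.2.2.2.2.1
    right_distrib := fun x y z => (h x y z).2.2.2.2.2.2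
    zero_mul := fun x => by
      let _ := mkGroup h
      have h1 : opMul M (opAdd M (opZero M) (opZero M)) x =
        opAdd M (opMul M (opZero M) x) (opMul M (opZero M) x) :=
          (h (opZero M) (opZero M) x).2.2.2.2.2.2
      rw [(h (opZero M) x x).2.2.1] at h1
      exact left_eq_add.mp h1
    mul_zero := fun x => by
      let _ := mkGroup h
      have h1 : opMul M x (opAdd M (opZero M) (opZero M)) =
        opAdd M (opMul M x (opZero M)) (opMul M x (opZero M)) :=
          (h x (opZero M) (opZero M)).2.2.2.2.2.1
      rw [(h (opZero M) x x).2.2.1] at h1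
      exact left_eq_add.mp h1 }

lemma agrees_mkRing (h : RingLaws M) : @Agrees M _ (mkRing h) := by
  refine ⟨fun x => ?_, fun x => ?_, fun x => ?_, fun x => ?_⟩
  · show _ = opAdd M (x 0) (x 1)
    rw [opAdd]
    congr 1
    funext i
    fin_cases i <;> rfl
  · show _ = opNeg M (x 0)
    rw [opNeg]
    congr 1
    funext i
    fin_cases i; rfl
  · show _ = opMul M (x 0) (x 1)
    rw [opMul]
    congr 1
    funext i
    fin_cases i <;> rfl
  · show _ = opZero M
    rw [opZero]
    congr 1
    funext i
    exact i.elim0

lemma agrees_add [NonUnitalRing M] (h : Agrees M) (x y : M) : opAdd M x y = x + y := h.1 _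
lemma agrees_neg [NonUnitalRing M] (h : Agrees M) (x : M) : opNeg M x = - x := h.2.1 _
lemma agrees_mul [NonUnitalRing M] (h : Agrees M) (x y : M) : opMul M x y = x * y := h.2.2.1 _
lemma agrees_zero [NonUnitalRing M] (h : Agrees M) : opZero M = 0 := h.2.2.2 _

lemma ringLaws_of_agrees [NonUnitalRing M] (h : Agrees M) : RingLaws M := by
  intro x y z
  simp only [agrees_add h, agrees_neg h, agrees_mul h, agrees_zero h]
  refine ⟨add_assoc _ _ _, add_comm _ _, add_zero _, add_neg_cancel _, mul_assoc _ _ _,
    mul_add _ _ _, add_mul _ _ _⟩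

/-- Transport of a finite ring to an initial segment of the naturals. -/
lemma exists_finRing (S : Type u) [NonUnitalRing S] [Finite S] :
    ∃ Q : FinRing, Nonempty (S ≃+* Q.Carrier) := by
  obtain ⟨m, ⟨e⟩⟩ := Finite.exists_equiv_fin S
  exact ⟨⟨m, e.symm.nonUnitalRing⟩, ⟨@RingEquiv.symm _ _ _ _ _ _ (@Equiv.ringEquiv _ _ e.symm _ _)⟩⟩

lemma holds_resFin (h : RingLaws M) :
    resFin.Holds M Empty.elim ↔ @ResiduallyFinite M (mkRing h) := by
  let _ : NonUnitalRing M := mkRing h
  constructor
  · intro hr a ha
    obtain ⟨o, ho⟩ := hr (fun _ => a)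
    cases o with
    | none =>
      exfalso
      simp only [InfFormula.Holds, tVar, Language.Term.realize_var, Sum.elim_inr,
        realize_tZero] at ho
      exact ha ho
    | some Q =>
      rw [holds_survives] at ho
      have hel : (Sum.elim Empty.elim (fun _ : Fin 1 => a) : Empty ⊕ Fin 1 → M) = fun _ => a := by
        funext i
        rcases i with i | i
        · exact i.elim
        · rfl
      rw [hel] at ho
      obtain ⟨χ, hχ0, hχ1, hχ2⟩ := exists_hom Q a ho
      let φ : M →ₙ+* Q.Carrier :=
        { toFun := χ
          map_mul' := hχ2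
          map_add' := hχ1
          map_zero' := by
            have := hχ1 0 0
            have h2 : opAdd M (0 : M) (0 : M) = 0 := (h 0 0 0).2.2.1
            rw [h2] at this
            exact left_eq_add.mp this }
      refine ⟨TwoSidedIdeal.ker φ, ?_, ?_⟩
      · refine Finite.of_injective
          (fun q : (TwoSidedIdeal.ker φ).ringCon.Quotient =>
            Quotient.lift (s := (TwoSidedIdeal.ker φ).ringCon.toSetoid) χ
              (fun x y hxy => hxy) q) ?_
        intro p q
        refine Quotient.inductionOn₂' p q ?_
        intro x y hxy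
        exact Quotient.sound' hxy
      · rw [TwoSidedIdeal.mem_ker]
        exact hχ0
  · intro hr w
    by_cases hw : w 0 = 0
    · refine ⟨none, ?_⟩
      simp only [InfFormula.Holds, tVar, Language.Term.realize_var, Sum.elim_inr, realize_tZero]
      exact hw
    · obtain ⟨I, hI, haI⟩ := hr (w 0) hw
      obtain ⟨Q, ⟨e⟩⟩ := exists_finRing I.ringCon.Quotient
      refine ⟨some Q, ?_⟩
      rw [holds_survives]
      intro n x
      refine ⟨fun i => e ((Sum.elim (Sum.elim Empty.elim w) x i : M) : I.ringCon.Quotient), ?_, ?_,
        ?_, ?_⟩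
      · intro h0
        apply haI
        rw [map_eq_zero_iff e e.injective] at h0
        rw [TwoSidedIdeal.mem_iff]
        exact (RingCon.eq _).mp h0
      · intro i j hij
        show e _ = e _
        rw [hij]
      · intro i j k hij
        show e _ + e _ = e _
        rw [← map_add, ← hij]
        rfl
      · intro i j k hij
        show e _ * e _ = e _
        rw [← map_mul, ← hij]
        rfl

/-- **Theorem.** Residually finite rings are axiomatizable by one sentence of the infinitary logic:
there is a sentence over the signature `{+, -, ·, 0}` whose models are exactly the residually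
finite rings. -/
theorem result : ∃ φ : InfFormula ringSig Empty, ∀ (M : Type u) [ringSig.Structure M],
    φ.Holds M Empty.elim ↔ IsResiduallyFiniteRing M := by
  refine ⟨sentence, fun M _ => ?_⟩
  constructor
  · intro h
    have h1 : RingLaws M := holds_ringAxioms.mp (h true)
    have h2 := (holds_resFin h1).mp (h false)
    exact ⟨mkRing h1, agrees_mkRing h1, h2⟩
  · rintro ⟨R, hR, hrf⟩
    have h1 : RingLaws M := ringLaws_of_agrees hR
    have hmk : mkRing h1 = R := by
      apply NonUnitalRing.ext
      · funext x y
        exact agrees_add hR x y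
      · funext x y
        exact agrees_mul hR x y
    intro b
    cases b
    · show resFin.Holds M Empty.elim
      rw [holds_resFin h1, hmk]
      exact hrf
    · exact holds_ringAxioms.mpr h1

end Pool.Agent.Results.MP_f264ea_lc.Rings
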